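import Pool.Agent.Q186.Ren.Track

set_option autoImplicit false

/-! # Distance to the superattracting parameters at renormalizable parameters: dimension -/

namespace Pool.Agent.Q186.Ren

open Complex Filter Topology Set Metric MeasureTheory N62a1eb23
open Pool.Agent.H712R2 (P P_succ P_one P_zero fc continuous_P mem_multibrot_iff isCompact_multibrot)
open Pool.Agent.Y736.RN
open Pool.Agent.Q186.Cen (Cn)

variable {d : ℕ}

theorem P_ne (hd : 2 ≤ d) {c : ℂ} (hc : c ∈ multibrotSet d) (hfr : c ∉ interior (multibrotSet d))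
    {m : ℕ} (hm : 1 ≤ m) : P d m c ≠ 0 := by
  intro h
  have hb := (mem_multibrot_iff hd c).1 hc
  have hder : ∀ i, ‖deriv ((fc d c)^[1]) (P d (1 * i) c)‖ ≤ d * 2 ^ (d - 1) := by
    intro i
    have h1 : HasDerivAt ((fc d c)^[1]) (d * (P d (1 * i) c) ^ (d - 1)) (P d (1 * i) c) := by
      rw [Function.iterate_one]
      exact (hasDerivAt_pow d (P d (1 * i) c)).add_const c
    rw [h1.deriv, norm_mul, norm_pow, Complex.norm_natCast]
    gcongr
    exact hb _
  obtain ⟨κ, hκ, H⟩ := lower hd hc hfr le_rfl (C := d * 2 ^ (d - 1)) (by positivity) hder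
  have h1 := H m hm
  have h2 : infDist c {c' | Cn d m c'} = 0 := infDist_zero_of_mem ⟨m, hm, le_rfl, h⟩
  rw [h2] at h1
  have : 0 < κ * (((d * 2 ^ (d - 1) : ℝ) + 2) ^ 2)⁻¹ ^ (m / 1) := by positivity
  linarith

theorem line_null (a v : ℂ) : volume (range fun t : ℝ => a + t • v) = 0 := by
  apply volume_zero_of_dimH
  have h1 : LipschitzWith ⟨‖v‖, norm_nonneg v⟩ (fun t : ℝ => a + t • v) := by
    refine LipschitzWith.of_dist_le_mul fun s t => ?_
    rw [dist_eq_norm, add_sub_add_left_eq_sub, ← sub_smul, norm_smul, dist_eq_norm, mul_comm]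
    rfl
  have h2 := h1.dimH_range_le
  rw [Real.dimH_univ] at h2
  exact h2.trans_lt (by norm_num)

/-- a good nearby escaping parameter -/
theorem exists_seg (hd : 2 ≤ d) {c₁ : ℂ} (hc : c₁ ∈ multibrotSet d)
    (hfr : c₁ ∉ interior (multibrotSet d)) {ε : ℝ} (hε : 0 < ε) :
    ∃ c' : ℂ, ‖c' - c₁‖ < ε ∧ c' ∉ multibrotSet d ∧
      ∀ c ∈ segment ℝ c₁ c', ∀ m, 1 ≤ m → P d m c ≠ 0 := by
  obtain ⟨O, hO⟩ : ∃ O : Set ℂ, O = ball c₁ ε ∩ (multibrotSet d)ᶜ := ⟨_, rfl⟩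
  have hOo : IsOpen O := by
    rw [hO]
    exact isOpen_ball.inter (isCompact_multibrot hd).isClosed.isOpen_compl
  have hOn : O.Nonempty := by
    by_contra hcon
    rw [not_nonempty_iff_eq_empty, hO] at hcon
    apply hfr
    rw [mem_interior]
    refine ⟨ball c₁ ε, fun x hx => ?_, isOpen_ball, mem_ball_self hε⟩
    by_contra hx'
    have : x ∈ ball c₁ ε ∩ (multibrotSet d)ᶜ := ⟨hx, hx'⟩
    rw [hcon] at this
    exact this
  have hpos : 0 < volume O := hOo.measure_pos volume hOn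
  obtain ⟨E, hE⟩ : ∃ E : Set ℂ, E = {z | ∃ k, 1 ≤ k ∧ P d k z = 0} := ⟨_, rfl⟩
  have hEc : E.Countable := by
    have h1 : E = ⋃ N : ℕ, {z | ∃ k, 1 ≤ k ∧ k ≤ N ∧ P d k z = 0} := by
      rw [hE]
      ext z
      simp only [mem_iUnion, mem_ofPred_eq]
      constructor
      · rintro ⟨k, h1, h2⟩
        exact ⟨k, k, h1, le_rfl, h2⟩
      · rintro ⟨N, k, h1, _, h2⟩
        exact ⟨k, h1, h2⟩
    rw [h1]
    exact countable_iUnion fun N => (finite_E hd 0 N).countable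
  have hnull : volume (⋃ z ∈ E, range fun t : ℝ => c₁ + t • (z - c₁)) = 0 :=
    (measure_biUnion_null_iff hEc).2 fun z _ => line_null c₁ (z - c₁)
  obtain ⟨c', hc'O, hc'E⟩ : ∃ c' ∈ O, c' ∉ ⋃ z ∈ E, range fun t : ℝ => c₁ + t • (z - c₁) := by
    by_contra hcon
    push Not at hcon
    exact hpos.ne' (measure_mono_null hcon hnull)
  rw [hO] at hc'O
  refine ⟨c', by simpa [dist_eq_norm] using hc'O.1, hc'O.2, ?_⟩
  intro c hcs m hm hP
  apply hc'E
  rw [mem_iUnion₂]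
  refine ⟨c, by rw [hE]; exact ⟨m, hm, hP⟩, ?_⟩
  rw [segment_eq_image'] at hcs
  obtain ⟨s, hs, rfl⟩ := hcs
  have hs0 : s ≠ 0 := by
    rintro rfl
    simp only [zero_smul, add_zero] at hP
    exact P_ne hd hc hfr hm hP
  refine ⟨s⁻¹, ?_⟩
  simp only [add_sub_cancel_left]
  rw [smul_smul, inv_mul_cancel₀ hs0, one_smul]
  ring

/-- escaping parameters leave every bounded set along multiples of `p` -/
theorem esc {p : ℕ} (hp : 1 ≤ p) {c' : ℂ} (hc' : c' ∉ multibrotSet d) {V : Set ℂ}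
    (hVb : Bornology.IsBounded V) : ∃ i, P d (p * i) c' ∉ closure V := by
  have ht : Tendsto (fun k => (fun z : ℂ => z ^ d + c')^[k] 0) atTop (Bornology.cobounded ℂ) := by
    by_contra h
    exact hc' h
  have h2 : Tendsto (fun k : ℕ => p * k) atTop atTop := by
    refine tendsto_atTop_mono (fun k => ?_) (tendsto_id (α := ℕ))
    exact Nat.le_mul_of_pos_left k hp
  have h3 := ht.comp h2
  have h4 : ∀ᶠ z in Bornology.cobounded ℂ, z ∉ closure V := hVb.closure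
  obtain ⟨k, hk⟩ := (h3.eventually h4).exists
  exact ⟨k, hk⟩

/-- parameters with trapped orbits which are close to superattracting parameters of the same kind -/
def Near (d p : ℕ) (V : Set ℂ) (X : ℝ) (c : ℂ) : Prop :=
  ∃ᶠ j : ℕ in atTop, ∃ z : ℂ, ((∀ i < j, P d (p * i) z ∈ V) ∧ P d (p * j) z = 0) ∧
    ‖c - z‖ ≤ 1 * Real.exp (-(X * j))

theorem loc_near (hd : 2 ≤ d) {p : ℕ} (hp : 1 ≤ p) {V : Set ℂ} (hVo : IsOpen V)
    (hVb : Bornology.IsBounded V) {c₁ : ℂ} (hg : Good d p V c₁) (hc : c₁ ∈ multibrotSet d)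
    (hfr₁ : c₁ ∉ interior (multibrotSet d)) :
    ∃ δ : ℝ, 0 < δ ∧ ∀ X : ℝ, 0 < X →
      dimH {c | c ∈ ball c₁ δ ∧ Near d p V X c} ≤ ENNReal.ofReal (Real.log d / X) := by
  obtain ⟨δ, hδ, hfr⟩ := stab hVb hg.1
  obtain ⟨c', hc', hesc', hseg⟩ := exists_seg hd hc hfr₁ (show 0 < δ / 16 by positivity)
  have h0 : (0 : ℂ) ∈ V := by
    have := hg.2.2 0
    rwa [Nat.mul_zero, P_zero] at this
  obtain ⟨C, J, hcount⟩ := count lp jz hd hp hVo hVb hδ hfr hg.2.1 hc' (esc hp hesc' hVb) h0 hseg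
  refine ⟨δ / 32, by positivity, fun X hX => ?_⟩
  have hdR : (1 : ℝ) < d := by exact_mod_cast (by omega : 1 < d)
  apply dc d X 1 C J (fun j => {c | c ∈ ball c₁ (δ / 16) ∧ (∀ i < j, P d (p * i) c ∈ V) ∧
    P d (p * j) c = 0}) _ hdR hX hcount
  rintro c ⟨hcb, hn⟩
  have hlim : Tendsto (fun j : ℕ => 1 * Real.exp (-(X * j))) atTop (𝓝 (1 * 0)) := by
    apply Tendsto.const_mul
    apply Real.tendsto_exp_neg_atTop_nhds_zero.comp
    exact Tendsto.const_mul_atTop hX tendsto_natCast_atTop_atTop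
  rw [mul_zero] at hlim
  have hsmall := hlim.eventually (gt_mem_nhds (show 0 < δ / 32 by positivity))
  refine (hn.and_eventually hsmall).mono ?_
  rintro j ⟨⟨z, hz, hzc⟩, hj⟩
  refine ⟨z, ⟨?_, hz⟩, hzc⟩
  rw [mem_ball, dist_eq_norm] at hcb ⊢
  have h1 := norm_add_le (z - c) (c - c₁)
  rw [sub_add_sub_cancel, norm_sub_rev z c] at h1
  linarith

theorem dim_near (hd : 2 ≤ d) {p : ℕ} (hp : 1 ≤ p) {V : Set ℂ} (hVo : IsOpen V)
    (hVb : Bornology.IsBounded V) {X : ℝ} (hX : 0 < X) :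
    dimH {c | (Good d p V c ∧ c ∈ multibrotSet d ∧ c ∉ interior (multibrotSet d)) ∧
      Near d p V X c} ≤ ENNReal.ofReal (Real.log d / X) := by
  apply le_of_forall_lt
  intro r hr
  obtain ⟨c₁, ⟨⟨hg, hc, hfr⟩, hf⟩, h⟩ := exists_mem_nhdsWithin_lt_dimH_of_lt_dimH hr
  obtain ⟨δ, hδ, hloc⟩ := loc_near hd hp hVo hVb hg hc hfr
  have h1 : ball c₁ δ ∩ {c | (Good d p V c ∧ c ∈ multibrotSet d ∧
      c ∉ interior (multibrotSet d)) ∧ Near d p V X c} ∈
      𝓝[{c | (Good d p V c ∧ c ∈ multibrotSet d ∧ c ∉ interior (multibrotSet d)) ∧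
        Near d p V X c}] c₁ :=
    inter_mem (mem_nhdsWithin_of_mem_nhds (ball_mem_nhds c₁ hδ)) self_mem_nhdsWithin
  refine (h _ h1).trans_le ((dimH_mono ?_).trans (hloc X hX))
  rintro c ⟨h2, h3, h4⟩
  exact ⟨h2, h4⟩

/-- renormalizable of period `p`, and the domain contains no other critical point -/
def RenC (d : ℕ) (c : ℂ) (p : ℕ) : Prop :=
  ∃ U : Set ℂ, PolyLike d ((fc d c)^[p]) U ∧ (0 : ℂ) ∈ U ∧ (∀ n, 1 ≤ n → P d (n * p) c ∈ U) ∧
    ∀ z ∈ closure U, deriv ((fc d c)^[p]) z = 0 → z = 0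

theorem good_of_renC {p : ℕ} {c : ℂ} (h : RenC d c p) :
    ∃ V ∈ FamV, IsOpen V ∧ Bornology.IsBounded V ∧ Good d p V c ∧
      ∀ z ∈ closure V, deriv ((fc d c)^[p]) z = 0 → z = 0 := by
  obtain ⟨U, hPL, h0, horb, hcrit⟩ := h
  have hg : Continuous ((fc d c)^[p]) := cont_it_y d p c
  have hfr := front_poly hg hPL
  obtain ⟨hUo, hUb, hsub, _, hdeg⟩ := hPL
  obtain ⟨K, hK⟩ : ∃ K : Set ℂ, K = closure U ∩ (fc d c)^[p] ⁻¹' closure U := ⟨_, rfl⟩
  have hKc : IsCompact K := by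
    rw [hK]
    exact (Metric.isCompact_of_isClosed_isBounded isClosed_closure hUb.closure).inter_right
      (isClosed_closure.preimage hg)
  have hKU : K ⊆ U := by
    rw [hK]
    rintro z ⟨h1, h2⟩
    by_contra hcon
    exact hfr z (by rw [hUo.frontier_eq]; exact ⟨h1, hcon⟩) h2
  obtain ⟨V, hV, hKV, hVU⟩ := approx hKc hUo hKU
  have hVU' : V ⊆ U := subset_closure.trans hVU
  have hPU : ∀ i, P d (p * i) c ∈ U := by
    intro i
    rcases Nat.eq_zero_or_pos i with hi | hi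
    · subst hi
      simpa [P_zero] using h0
    · rw [Nat.mul_comm]
      exact horb i hi
  refine ⟨V, hV, FamV_open hV, hUb.subset hVU', ⟨?_, ?_, ?_⟩, ?_⟩
  · intro z hz hgz
    have hz1 : z ∈ closure V := frontier_subset_closure hz
    rw [(FamV_open hV).frontier_eq] at hz
    apply hz.2
    apply hKV
    rw [hK]
    exact ⟨subset_closure (hVU hz1), subset_closure (hVU hgz)⟩
  · intro w hw
    have h1 : w ∈ (fc d c)^[p] '' U := hsub (subset_closure (hVU' hw))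
    have h2 := hdeg w h1
    have h3 : {z | z ∈ V ∧ (fc d c)^[p] z = w} ⊆ {z | z ∈ U ∧ (fc d c)^[p] z = w} :=
      fun z hz => ⟨hVU' hz.1, hz.2⟩
    have h4 : {z | z ∈ V ∧ (fc d c)^[p] z = w}.encard ≤ d := (encard_le_encard h3).trans h2
    have h5 : {z | z ∈ V ∧ (fc d c)^[p] z = w}.Finite :=
      finite_of_encard_le_coe h4
    refine ⟨h5, ?_⟩
    rw [← h5.cast_ncard_eq] at h4
    exact_mod_cast h4
  · intro i
    apply hKV
    rw [hK]
    refine ⟨subset_closure (hPU i), ?_⟩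
    show (fc d c)^[p] (P d (p * i) c) ∈ closure U
    rw [iter_P, show p + p * i = p * (i + 1) by ring]
    exact subset_closure (hPU (i + 1))
  · intro z hz
    exact hcrit z (subset_closure (hVU hz))

/-- an iterated preimage of the critical point is critical -/
theorem deriv_zero (hd : 2 ≤ d) {c y : ℂ} {p q : ℕ} (hqp : q < p) (h : (fc d c)^[q] y = 0) :
    deriv ((fc d c)^[p]) y = 0 := by
  obtain ⟨r, rfl⟩ : ∃ r, p = r + (1 + q) := ⟨p - (1 + q), by omega⟩
  have h1 : HasDerivAt ((fc d c)^[1]) 0 ((fc d c)^[q] y) := by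
    rw [h, Function.iterate_one]
    have h2 := (hasDerivAt_pow d (0 : ℂ)).add_const c
    rw [zero_pow (by omega : d - 1 ≠ 0), mul_zero] at h2
    exact h2
  have h2 := h1.comp y ((diff_it_y d q c) y).hasDerivAt
  rw [zero_mul] at h2
  have h3 : HasDerivAt ((fc d c)^[r]) (deriv ((fc d c)^[r]) (((fc d c)^[1] ∘ (fc d c)^[q]) y))
    (((fc d c)^[1] ∘ (fc d c)^[q]) y) := ((diff_it_y d r c) _).hasDerivAt
  have h4 := h3.comp y h2
  rw [mul_zero] at h4
  have e : (fc d c)^[r + (1 + q)] = (fc d c)^[r] ∘ ((fc d c)^[1] ∘ (fc d c)^[q]) := by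
    rw [Function.iterate_add, Function.iterate_add]
  rw [e]
  exact h4.deriv

/-- the orbits of nearby parameters do not hit the critical point at the other times -/
theorem nohit (hd : 2 ≤ d) {c : ℂ} (hc : c ∈ multibrotSet d)
    (hfr : c ∉ interior (multibrotSet d)) {p : ℕ} {V : Set ℂ} (hVb : Bornology.IsBounded V)
    (hcrit : ∀ z ∈ closure V, deriv ((fc d c)^[p]) z = 0 → z = 0) :
    ∃ δ : ℝ, 0 < δ ∧ ∀ c' ∈ ball c δ, ∀ y ∈ closure V, ∀ q, 1 ≤ q → q < p →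
      (fc d c')^[q] y ≠ 0 := by
  have hopen : IsOpen {x : ℂ × ℂ | ∀ q ∈ Finset.Ico 1 p, (fc d x.1)^[q] x.2 ≠ 0} := by
    have h : {x : ℂ × ℂ | ∀ q ∈ Finset.Ico 1 p, (fc d x.1)^[q] x.2 ≠ 0} =
        ⋂ q ∈ Finset.Ico 1 p, {x : ℂ × ℂ | (fc d x.1)^[q] x.2 ≠ 0} := by
      ext x
      simp
    rw [h]
    exact isOpen_biInter_finset fun q _ => isOpen_ne_fun (cont_it d q) continuous_const
  have hK : IsCompact (closure V) :=
    Metric.isCompact_of_isClosed_isBounded isClosed_closure hVb.closure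
  obtain ⟨u, v, hu, hv, hsu, htv, huv⟩ := generalized_tube_lemma (isCompact_singleton (x := c))
    hK hopen (by
      rintro ⟨a, b⟩ ⟨ha, hb⟩ q hq h0
      have ha' : a = c := ha
      rw [Finset.mem_Ico] at hq
      simp only at h0
      rw [ha'] at h0
      have h1 := hcrit b hb (deriv_zero hd hq.2 h0)
      rw [h1] at h0
      exact P_ne hd hc hfr hq.1 h0)
  obtain ⟨δ, hδ, hball⟩ := Metric.isOpen_iff.1 hu c (hsu rfl)
  refine ⟨δ, hδ, fun c' hc' y hy q hq1 hq2 => ?_⟩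
  exact huv (show (c', y) ∈ u ×ˢ v from ⟨hball hc', htv hy⟩) q (Finset.mem_Ico.2 ⟨hq1, hq2⟩)

/-- the distance to the superattracting parameters is attained -/
theorem attained (hd : 2 ≤ d) (c : ℂ) {N : ℕ} (hN : 1 ≤ N) :
    ∃ z, Cn d N z ∧ ‖z - c‖ = infDist c {c' | Cn d N c'} := by
  obtain ⟨z, hz, h⟩ := (Pool.Agent.Q186.Cen.isClosed_Cn d N).exists_infDist_eq_dist
    ⟨0, Pool.Agent.Q186.Cen.cn_zero hd hN⟩ c
  exact ⟨z, hz, by rw [h, dist_comm, dist_eq_norm]⟩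

/-- **The dichotomy.** -/
theorem near_of_slow (hd : 2 ≤ d) {c : ℂ} (hc : c ∈ multibrotSet d)
    (hfr : c ∉ interior (multibrotSet d)) {p : ℕ} (hp : 1 ≤ p) {V : Set ℂ}
    (hVb : Bornology.IsBounded V)
    (hcrit : ∀ z ∈ closure V, deriv ((fc d c)^[p]) z = 0 → z = 0) {a a' : ℝ} (ha' : 0 < a')
    (haa : a' < a) (hf : ∃ᶠ N : ℕ in atTop, infDist c {c' | Cn d N c'} ≤ Real.exp (-(a * N)))
    (hslow : ¬ Fast d p V (p * a') c) : Near d p V (p * a') c := by
  obtain ⟨δ, hδ, hno⟩ := nohit hd hc hfr hVb hcrit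
  unfold Fast at hslow
  rw [not_frequently] at hslow
  obtain ⟨n₀, hn₀⟩ := eventually_atTop.1 hslow
  unfold Near
  rw [frequently_atTop]
  intro J
  -- small periods are far away
  obtain ⟨δJ, hδJ, hJ⟩ : ∃ δJ > 0, ∀ z, Cn d (p * J) z → δJ ≤ ‖z - c‖ := by
    rcases Nat.eq_zero_or_pos (p * J) with h0 | h0
    · refine ⟨1, one_pos, ?_⟩
      rintro z ⟨m, hm1, hm2, _⟩
      omega
    · refine ⟨infDist c {c' | Cn d (p * J) c'}, ?_, ?_⟩
      · obtain ⟨z, ⟨m, hm1, hm2, hm3⟩, hz⟩ := attained hd c h0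
        rw [← hz]
        refine norm_pos_iff.2 (sub_ne_zero.2 ?_)
        rintro rfl
        exact P_ne hd hc hfr hm1 hm3
      · intro z hz
        have := infDist_le_dist_of_mem (x := c) (show z ∈ {c' | Cn d (p * J) c'} from hz)
        rwa [dist_comm, dist_eq_norm] at this
  have ha : 0 < a := ha'.trans haa
  have hlim : Tendsto (fun N : ℕ => Real.exp (-(a * N))) atTop (𝓝 0) := by
    apply Real.tendsto_exp_neg_atTop_nhds_zero.comp
    exact Tendsto.const_mul_atTop ha tendsto_natCast_atTop_atTop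
  have hsmall := hlim.eventually (gt_mem_nhds (lt_min hδ hδJ))
  obtain ⟨N₁, hN₁⟩ := exists_nat_gt (a' * p / (a - a'))
  obtain ⟨N, hN, hNs, hNge⟩ := (hf.and_eventually (hsmall.and
    (eventually_ge_atTop (max (p * n₀) (max N₁ 1))))).exists
  have hN1 : p * n₀ ≤ N := (le_max_left _ _).trans hNge
  have hN2 : N₁ ≤ N := (le_max_left _ _).trans ((le_max_right _ _).trans hNge)
  have hN3 : 1 ≤ N := (le_max_right _ _).trans ((le_max_right _ _).trans hNge)
  obtain ⟨z, ⟨m, hm1, hmN, hPm⟩, hz⟩ := attained hd c hN3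
  rw [← hz] at hN
  have hzδ : ‖z - c‖ < δ := hN.trans_lt (hNs.trans_le (min_le_left _ _))
  have hzJ : ‖z - c‖ < δJ := hN.trans_lt (hNs.trans_le (min_le_right _ _))
  have hmJ : p * J < m := by
    by_contra hcon
    rw [not_lt] at hcon
    exact absurd (hJ z ⟨m, hm1, hcon, hPm⟩) (not_le.2 hzJ)
  obtain ⟨n, hn⟩ : ∃ n, n = N / p + 1 := ⟨_, rfl⟩
  have hnn₀ : n₀ ≤ n := by
    have : n₀ ≤ N / p := (Nat.le_div_iff_mul_le (by omega)).2 (by rw [Nat.mul_comm]; exact hN1)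
    omega
  have hpn : ((p : ℝ) * n) ≤ N + p := by
    have h1 : p * (N / p) ≤ N := Nat.mul_div_le N p
    have h2 : p * n ≤ N + p := by rw [hn, Nat.mul_add, Nat.mul_one]; omega
    exact_mod_cast h2
  have hexp : Real.exp (-(a * N)) ≤ Real.exp (-(p * a' * n)) := by
    apply Real.exp_le_exp.2
    rw [neg_le_neg_iff]
    have h1 : a' * p < (a - a') * N := by
      rw [div_lt_iff₀ (by linarith)] at hN₁
      have h2 : (N₁ : ℝ) ≤ N := by exact_mod_cast hN2
      nlinarith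
    nlinarith
  have htrap : ∀ i ≤ n, P d (p * i) z ∈ V := by
    intro i hi
    by_contra hcon
    refine hn₀ n hnn₀ ⟨z, ?_, i, hi, hcon⟩
    rw [mem_closedBall, dist_eq_norm]
    exact hN.trans hexp
  have hk : m / p ≤ N / p := Nat.div_le_div_right hmN
  have hmod : m % p = 0 := by
    by_contra hq
    have h1 : (fc d z)^[m % p] (P d (p * (m / p)) z) = 0 := by
      rw [iter_P, Nat.mod_add_div]
      exact hPm
    refine hno z (by rw [mem_ball, dist_eq_norm]; exact hzδ) _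
      (subset_closure (htrap (m / p) (by omega))) (m % p) (by omega) (Nat.mod_lt _ (by omega)) h1
  have hm : m = p * (m / p) := by
    have := Nat.mod_add_div m p
    omega
  refine ⟨m / p, ?_, z, ⟨fun i hi => htrap i (by omega), by rw [← hm]; exact hPm⟩, ?_⟩
  · rw [Nat.le_div_iff_mul_le (by omega), Nat.mul_comm]
    exact hmJ.le
  · rw [one_mul, norm_sub_rev]
    refine (hN.trans hexp).trans ?_
    apply Real.exp_le_exp.2
    rw [neg_le_neg_iff]
    have h1 : ((m / p : ℕ) : ℝ) ≤ n := by exact_mod_cast (by omega : m / p ≤ n)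
    gcongr

/-- **The dimension bound.** -/
theorem dim_ren (hd : 2 ≤ d) {p : ℕ} (hp : 1 ≤ p) {a : ℝ} (ha : 0 < a) :
    dimH {c | (c ∈ multibrotSet d ∧ c ∉ interior (multibrotSet d)) ∧ RenC d c p ∧
      ∃ᶠ N : ℕ in atTop, infDist c {c' | Cn d N c'} ≤ Real.exp (-(a * N))} ≤
      ENNReal.ofReal (Real.log d / (p * a)) := by
  have hpR : (0 : ℝ) < p := by exact_mod_cast hp
  suffices hmain : ∀ a' : ℝ, 0 < a' → a' < a →
      dimH {c | (c ∈ multibrotSet d ∧ c ∉ interior (multibrotSet d)) ∧ RenC d c p ∧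
        ∃ᶠ N : ℕ in atTop, infDist c {c' | Cn d N c'} ≤ Real.exp (-(a * N))} ≤
        ENNReal.ofReal (Real.log d / (p * a')) by
    have h1 : Tendsto (fun a' : ℝ => ENNReal.ofReal (Real.log d / (p * a'))) (𝓝[<] a)
        (𝓝 (ENNReal.ofReal (Real.log d / (p * a)))) := by
      apply ENNReal.tendsto_ofReal
      refine (tendsto_const_nhds.div (tendsto_id.const_mul _) ?_).mono_left nhdsWithin_le_nhds
      exact (mul_pos hpR ha).ne'
    apply ge_of_tendsto h1
    have h2 : ∀ᶠ a' : ℝ in 𝓝[<] a, 0 < a' := nhdsWithin_le_nhds (lt_mem_nhds ha)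
    filter_upwards [h2, self_mem_nhdsWithin] with a' h3 h4
    exact hmain a' h3 h4
  intro a' ha' haa
  have hX : 0 < (p : ℝ) * a' := by positivity
  have hsub : {c | (c ∈ multibrotSet d ∧ c ∉ interior (multibrotSet d)) ∧ RenC d c p ∧
      ∃ᶠ N : ℕ in atTop, infDist c {c' | Cn d N c'} ≤ Real.exp (-(a * N))} ⊆
      ⋃ V ∈ {V : Set ℂ | V ∈ FamV ∧ Bornology.IsBounded V},
        ({c | Good d p V c ∧ Fast d p V (p * a') c} ∪
          {c | (Good d p V c ∧ c ∈ multibrotSet d ∧ c ∉ interior (multibrotSet d)) ∧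
            Near d p V (p * a') c}) := by
    rintro c ⟨⟨h1, h2⟩, h3, h4⟩
    obtain ⟨V, hV, _, hVb, hg, hcrit⟩ := good_of_renC h3
    rw [mem_iUnion₂]
    refine ⟨V, ⟨hV, hVb⟩, ?_⟩
    by_cases h5 : Fast d p V (p * a') c
    · exact Or.inl ⟨hg, h5⟩
    · exact Or.inr ⟨⟨hg, h1, h2⟩, near_of_slow hd h1 h2 hp hVb hcrit ha' haa h4 h5⟩
  refine (dimH_mono hsub).trans ?_
  rw [dimH_bUnion (FamV_countable.mono fun V hV => hV.1)]
  refine iSup₂_le fun V hV => ?_
  rw [dimH_union]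
  exact max_le (dim_good lp jz qs dc seq hd hp (FamV_open hV.1) hV.2 hX)
    (dim_near hd hp (FamV_open hV.1) hV.2 hX)

/-- **The infinitely renormalizable parameters.** -/
theorem dim_inf (hd : 2 ≤ d) :
    dimH {c | (c ∈ multibrotSet d ∧ c ∉ interior (multibrotSet d)) ∧
      {p : ℕ | RenC d c p}.Infinite ∧ ∃ a : ℝ, 0 < a ∧
        ∃ᶠ N : ℕ in atTop, infDist c {c' | Cn d N c'} ≤ Real.exp (-(a * N))} = 0 := by
  have hdR : (1 : ℝ) < d := by exact_mod_cast (by omega : 1 < d)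
  have hlogd : 0 < Real.log d := Real.log_pos hdR
  obtain ⟨S, hS⟩ : ∃ S : ℕ → Set ℂ, S = fun k : ℕ => {c | (c ∈ multibrotSet d ∧
      c ∉ interior (multibrotSet d)) ∧ {p : ℕ | RenC d c p}.Infinite ∧
        ∃ᶠ N : ℕ in atTop, infDist c {c' | Cn d N c'} ≤ Real.exp (-(1 / ((k : ℝ) + 1) * N))} :=
    ⟨_, rfl⟩
  have hsub : {c | (c ∈ multibrotSet d ∧ c ∉ interior (multibrotSet d)) ∧
      {p : ℕ | RenC d c p}.Infinite ∧ ∃ a : ℝ, 0 < a ∧
        ∃ᶠ N : ℕ in atTop, infDist c {c' | Cn d N c'} ≤ Real.exp (-(a * N))} ⊆ ⋃ k, S k := by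
    rintro c ⟨h1, h2, a, ha, h3⟩
    obtain ⟨k, hk⟩ := exists_nat_one_div_lt ha
    rw [mem_iUnion, hS]
    refine ⟨k, h1, h2, h3.mono fun N hN => hN.trans ?_⟩
    apply Real.exp_le_exp.2
    rw [neg_le_neg_iff]
    gcongr
  apply le_antisymm _ bot_le
  refine (dimH_mono hsub).trans ?_
  rw [dimH_iUnion]
  apply iSup_le
  intro k
  have h1 : ∀ N : ℕ, dimH (S k) ≤
      ENNReal.ofReal (Real.log d / (((N : ℝ) + 1) * (1 / ((k : ℝ) + 1)))) := by
    intro N
    have h2 : S k ⊆ ⋃ p : {p : ℕ // N + 1 ≤ p}, {c | (c ∈ multibrotSet d ∧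
        c ∉ interior (multibrotSet d)) ∧ RenC d c p ∧
        ∃ᶠ N : ℕ in atTop, infDist c {c' | Cn d N c'} ≤ Real.exp (-(1 / ((k : ℝ) + 1) * N))} := by
      rw [hS]
      rintro c ⟨h3, h4, h5⟩
      obtain ⟨p, hp, hpN⟩ := h4.exists_gt N
      exact mem_iUnion.2 ⟨⟨p, hpN⟩, h3, hp, h5⟩
    refine (dimH_mono h2).trans ?_
    rw [dimH_iUnion]
    apply iSup_le
    rintro ⟨p, hp⟩
    refine (dim_ren (p := p) hd (le_trans (Nat.le_add_left 1 N) hp) (by positivity)).trans ?_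
    apply ENNReal.ofReal_le_ofReal
    have h5 : ((N : ℝ) + 1) ≤ p := by exact_mod_cast hp
    gcongr
  have h2 : Tendsto (fun N : ℕ => ENNReal.ofReal (Real.log d /
      (((N : ℝ) + 1) * (1 / ((k : ℝ) + 1))))) atTop (𝓝 (ENNReal.ofReal 0)) := by
    apply ENNReal.tendsto_ofReal
    have h3 := (tendsto_one_div_add_atTop_nhds_zero_nat (𝕜 := ℝ)).const_mul
      (Real.log d * ((k : ℝ) + 1))
    rw [mul_zero] at h3
    refine h3.congr fun N => ?_
    field_simp
  rw [ENNReal.ofReal_zero] at h2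
  exact ge_of_tendsto' h2 h1

/-- the exponent is zero if the distance is never exponentially small -/
theorem tendsto_zero (hd : 2 ≤ d) {c : ℂ} (hc : c ∈ multibrotSet d)
    (h : ∀ a : ℝ, 0 < a → ∀ᶠ N : ℕ in atTop, Real.exp (-(a * N)) < infDist c {c' | Cn d N c'}) :
    Tendsto (fun N : ℕ => Real.log (infDist c {c' | Cn d N c'}) / N) atTop (𝓝 0) := by
  have hcn : ‖c‖ ≤ 2 := by
    have := (mem_multibrot_iff hd c).1 hc 1
    rwa [P_one hd] at this
  rw [tendsto_order]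
  constructor
  · intro b hb
    filter_upwards [h (-b / 2) (by linarith), eventually_ge_atTop 1] with N h1 hN
    have hN0 : (0 : ℝ) < N := by exact_mod_cast hN
    have h2 := Real.log_lt_log (Real.exp_pos _) h1
    rw [Real.log_exp] at h2
    rw [lt_div_iff₀ hN0]
    nlinarith
  · intro b hb
    have h1 := tendsto_const_div_atTop_nhds_zero_nat (Real.log 2)
    filter_upwards [h 1 one_pos, eventually_ge_atTop 1, h1.eventually (gt_mem_nhds hb)]
      with N h2 hN h3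
    have hN0 : (0 : ℝ) < N := by exact_mod_cast hN
    have h4 : infDist c {c' | Cn d N c'} ≤ 2 := by
      have h5 := infDist_le_dist_of_mem (x := c)
        (show (0 : ℂ) ∈ {c' | Cn d N c'} from Pool.Agent.Q186.Cen.cn_zero hd hN)
      rw [dist_zero_right] at h5
      linarith
    refine lt_of_le_of_lt ?_ h3
    apply div_le_div_of_nonneg_right _ hN0.le
    exact Real.log_le_log ((Real.exp_pos _).trans h2) h4

/-- **Zero exponent under subexponential bounds.** -/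
theorem zero_of_bounds (hd : 2 ≤ d) {c : ℂ} (hc : c ∈ multibrotSet d)
    (hfr : c ∉ interior (multibrotSet d))
    (h : ∀ ε : ℝ, 0 < ε → {p : ℕ | ∀ i, ‖deriv ((fc d c)^[p]) (P d (p * i) c)‖ ≤
      Real.exp (ε * p)}.Infinite) :
    Tendsto (fun N : ℕ => Real.log (infDist c {c' | Cn d N c'}) / N) atTop (𝓝 0) := by
  apply tendsto_zero hd hc
  intro a ha
  obtain ⟨k, hk⟩ := exists_nat_gt (8 * Real.log 3 / a)
  obtain ⟨p, hder, hpk⟩ := (h (a / 8) (by positivity)).exists_gt k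
  have hp : 1 ≤ p := by omega
  have hpR : (0 : ℝ) < p := by exact_mod_cast hp
  have hkp : (k : ℝ) < p := by exact_mod_cast hpk
  obtain ⟨κ, hκ, H⟩ := lower hd hc hfr hp (Real.exp_pos _).le hder
  obtain ⟨Λ, hΛ⟩ : ∃ Λ, Λ = Real.exp (a / 8 * p) + 2 := ⟨_, rfl⟩
  rw [← hΛ] at H
  have hΛ1 : 1 < Λ := by
    rw [hΛ]
    have := Real.exp_pos (a / 8 * p)
    linarith
  have hlogΛ : Real.log Λ ≤ a / 4 * p := by
    have h1 : Λ ≤ 3 * Real.exp (a / 8 * p) := by
      have : 1 ≤ Real.exp (a / 8 * p) := Real.one_le_exp (by positivity)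
      rw [hΛ]; linarith
    have h2 := Real.log_le_log (by linarith) h1
    rw [Real.log_mul (by norm_num) (Real.exp_pos _).ne', Real.log_exp] at h2
    rw [div_lt_iff₀ ha] at hk
    nlinarith
  have hlim : Tendsto (fun N : ℕ => a / 2 * (N : ℝ)) atTop atTop :=
    Tendsto.const_mul_atTop (by positivity) tendsto_natCast_atTop_atTop
  filter_upwards [eventually_ge_atTop 1, hlim.eventually (eventually_gt_atTop (-Real.log κ))]
    with N hN hN2
  refine lt_of_lt_of_le ?_ (H N hN)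
  have h1 : 0 < κ * (Λ ^ 2)⁻¹ ^ (N / p) := by positivity
  rw [← Real.lt_log_iff_exp_lt h1, Real.log_mul hκ.ne' (by positivity), Real.log_pow, Real.log_inv,
    Real.log_pow]
  have h2 : ((N / p : ℕ) : ℝ) * Real.log Λ ≤ a / 4 * N := by
    have h3 : ((N / p : ℕ) : ℝ) ≤ N / p := Nat.cast_div_le
    have h4 : 0 ≤ Real.log Λ := Real.log_nonneg hΛ1.le
    calc ((N / p : ℕ) : ℝ) * Real.log Λ ≤ N / p * (a / 4 * p) := by gcongr
      _ = a / 4 * N := by field_simp
  push_cast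
  nlinarith

end Pool.Agent.Q186.Ren
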