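import Pool.Agent.Y736.RN.L
import Pool.Agent.Y736.RN.M
import Pool.Agent.Q186.Cen.Lyap

set_option autoImplicit false

/-! # Distance to the superattracting parameters at renormalizable parameters: the lower bound -/

namespace Pool.Agent.Q186.Ren

open Complex Filter Topology Set Metric MeasureTheory N62a1eb23
open Pool.Agent.H712R2 (P P_succ P_one P_zero fc continuous_P mem_multibrot_iff)
open Pool.Agent.Y736.RN
open Pool.Agent.Q186.Cen (Cn)

variable {d : ℕ}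

/-- a smooth function is Lipschitz on a compact convex set -/
theorem lip {E F : Type*} [NormedAddCommGroup E] [NormedSpace ℝ E] [NormedAddCommGroup F]
    [NormedSpace ℝ F] {G : E → F} (hG : ContDiff ℝ 1 G) {K : Set E} (hK : IsCompact K)
    (hKc : Convex ℝ K) : ∃ M : ℝ, 1 ≤ M ∧ ∀ x ∈ K, ∀ y ∈ K, ‖G x - G y‖ ≤ M * ‖x - y‖ := by
  obtain ⟨M, hM⟩ := hK.exists_bound_of_continuousOn (f := fderiv ℝ G)
    (hG.continuous_fderiv one_ne_zero).continuousOn
  refine ⟨max M 1, le_max_right _ _, fun x hx y hy => ?_⟩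
  exact hKc.norm_image_sub_le_of_norm_fderiv_le (𝕜 := ℝ)
    (fun z _ => (hG.differentiable one_ne_zero) z) (fun z hz => (hM z hz).trans (le_max_left _ _))
    hy hx

theorem lip_it (d : ℕ) (c : ℂ) (p : ℕ) : ∃ M : ℝ, 1 ≤ M ∧ ∀ q ≤ p, ∀ c₁ ∈ closedBall c 1,
    ∀ c₂ ∈ closedBall c 1, ∀ z₁ ∈ closedBall (0 : ℂ) 5, ∀ z₂ ∈ closedBall (0 : ℂ) 5,
      ‖(fc d c₁)^[q] z₁ - (fc d c₂)^[q] z₂‖ ≤ M * (‖c₁ - c₂‖ + ‖z₁ - z₂‖) := by
  have h1 : ∀ q : ℕ, ∃ M : ℝ, 1 ≤ M ∧ ∀ x ∈ closedBall c 1 ×ˢ closedBall (0 : ℂ) 5,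
      ∀ y ∈ closedBall c 1 ×ˢ closedBall (0 : ℂ) 5,
      ‖(fc d x.1)^[q] x.2 - (fc d y.1)^[q] y.2‖ ≤ M * ‖x - y‖ := by
    intro q
    exact lip (G := fun x : ℂ × ℂ => (fc d x.1)^[q] x.2)
      (((contDiff_it d q).restrict_scalars ℝ).of_le le_top)
      ((isCompact_closedBall _ _).prod (isCompact_closedBall _ _))
      ((convex_closedBall _ _).prod (convex_closedBall _ _))
  choose M hM1 hM using h1
  have hMs : ∀ q ≤ p, M q ≤ ∑ i ∈ Finset.range (p + 1), M i := fun q hq =>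
    Finset.single_le_sum (f := M) (fun i _ => by linarith [hM1 i])
      (Finset.mem_range.2 (Nat.lt_succ_of_le hq))
  refine ⟨∑ i ∈ Finset.range (p + 1), M i, (hM1 0).trans (hMs 0 (Nat.zero_le _)), ?_⟩
  intro q hq c₁ hc₁ c₂ hc₂ z₁ hz₁ z₂ hz₂
  have h2 := hM q (c₁, z₁) ⟨hc₁, hz₁⟩ (c₂, z₂) ⟨hc₂, hz₂⟩
  refine h2.trans ?_
  have h3 : ‖(c₁, z₁) - (c₂, z₂)‖ ≤ ‖c₁ - c₂‖ + ‖z₁ - z₂‖ := by
    rw [Prod.mk_sub_mk, Prod.norm_def]
    exact max_le (le_add_of_nonneg_right (norm_nonneg _)) (le_add_of_nonneg_left (norm_nonneg _))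
  have h4 : 0 ≤ M q := by linarith [hM1 q]
  have h5 : 0 ≤ ‖c₁ - c₂‖ + ‖z₁ - z₂‖ := by positivity
  calc _ ≤ M q * (‖c₁ - c₂‖ + ‖z₁ - z₂‖) := mul_le_mul_of_nonneg_left h3 h4
    _ ≤ _ := mul_le_mul_of_nonneg_right (hMs q hq) h5

/-- **Tracking.** -/
theorem track (hd : 2 ≤ d) {c : ℂ} (hc : c ∈ multibrotSet d) {p : ℕ} (hp : 1 ≤ p) {C : ℝ}
    (hC : 0 ≤ C) (hder : ∀ i, ‖deriv ((fc d c)^[p]) (P d (p * i) c)‖ ≤ C) :
    ∃ t M : ℝ, 0 < t ∧ 1 ≤ M ∧ ∀ (c' z : ℂ) (n : ℕ), ‖c' - c‖ ≤ 1 → ‖z‖ ≤ 1 →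
      M * (‖c' - c‖ + ‖z‖ ^ 2) * (C + 2) ^ n ≤ t → ∀ m : ℕ, 1 ≤ m → m / p ≤ n →
        ‖(fc d c')^[m] z - P d m c‖ ≤ M * (‖c' - c‖ + ‖z‖ ^ 2) * (C + 2) ^ n := by
  have hb := (mem_multibrot_iff hd c).1 hc
  have hcn : ‖c‖ ≤ 2 := by
    have := hb 1
    rwa [P_one hd] at this
  obtain ⟨M₀, hM₀, hL⟩ := lip_it d c p
  -- uniform continuity of the derivative
  have hdc : Continuous (deriv ((fc d c)^[p])) :=
    ((diff_it_y d p c).contDiff (n := 1)).continuous_deriv le_rfl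
  have huc := (isCompact_closedBall (0 : ℂ) 3).uniformContinuousOn_of_continuous hdc.continuousOn
  rw [Metric.uniformContinuousOn_iff] at huc
  obtain ⟨η, hη, huc⟩ := huc 1 one_pos
  obtain ⟨t, ht⟩ : ∃ t, t = min (η / 2) 1 := ⟨_, rfl⟩
  have ht0 : 0 < t := by rw [ht]; positivity
  have ht1 : t ≤ 1 := by rw [ht]; exact min_le_right _ _
  have htη : t < η := by
    have := min_le_left (η / 2) 1
    rw [ht]; linarith
  have hstep : ∀ (i : ℕ) (z : ℂ), ‖z - P d (p * i) c‖ ≤ t →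
      ‖(fc d c)^[p] z - (fc d c)^[p] (P d (p * i) c)‖ ≤ (C + 1) * ‖z - P d (p * i) c‖ := by
    intro i z hz
    have hsub : closedBall (P d (p * i) c) t ⊆ closedBall (0 : ℂ) 3 := by
      intro y hy
      rw [mem_closedBall, dist_eq_norm] at hy
      rw [mem_closedBall_zero_iff]
      have h1 := norm_add_le (y - P d (p * i) c) (P d (p * i) c)
      rw [sub_add_cancel] at h1
      have := hb (p * i)
      linarith
    have h1 : ∀ x ∈ closedBall (P d (p * i) c) t, ‖deriv ((fc d c)^[p]) x‖ ≤ C + 1 := by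
      intro x hx
      have h2 := huc x (hsub hx) _ (hsub (mem_closedBall_self ht0.le)) (by
        rw [mem_closedBall] at hx
        linarith)
      rw [dist_eq_norm] at h2
      have h3 := norm_add_le (deriv ((fc d c)^[p]) x - deriv ((fc d c)^[p]) (P d (p * i) c))
        (deriv ((fc d c)^[p]) (P d (p * i) c))
      rw [sub_add_cancel] at h3
      have := hder i
      linarith
    exact (convex_closedBall (P d (p * i) c) t).norm_image_sub_le_of_norm_deriv_le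
      (fun x _ => (diff_it_y d p c) x) h1 (mem_closedBall_self ht0.le)
      (by rw [mem_closedBall, dist_eq_norm]; exact hz)
  refine ⟨t, 4 * M₀ ^ 2, ht0, by nlinarith, ?_⟩
  intro c' z n hc' hz hS
  obtain ⟨S, hSd⟩ : ∃ S, S = ‖c' - c‖ + ‖z‖ ^ 2 := ⟨_, rfl⟩
  rw [← hSd] at hS ⊢
  have hcS : ‖c' - c‖ ≤ S := by rw [hSd]; exact le_add_of_nonneg_right (by positivity)
  have hS0 : 0 ≤ S := (norm_nonneg _).trans hcS
  have hcm : c' ∈ closedBall c 1 := by rw [mem_closedBall, dist_eq_norm]; exact hc'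
  have hcc : c ∈ closedBall c 1 := mem_closedBall_self zero_le_one
  have hPm : ∀ k, P d k c ∈ closedBall (0 : ℂ) 5 := by
    intro k
    rw [mem_closedBall_zero_iff]
    linarith [hb k]
  -- the first block
  have hfirst : ∀ m, 1 ≤ m → m ≤ p → ‖(fc d c')^[m] z - P d m c‖ ≤ 2 * M₀ * S := by
    intro m hm1 hm2
    obtain ⟨q, rfl⟩ := Nat.exists_eq_add_of_le' hm1
    have e1 : (fc d c')^[q + 1] z = (fc d c')^[q] (z ^ d + c') := by
      rw [Function.iterate_succ_apply]; rfl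
    have e2 : P d (q + 1) c = (fc d c)^[q] (0 ^ d + c) := by
      unfold P
      rw [Function.iterate_succ_apply]; rfl
    rw [e1, e2, zero_pow (by omega), zero_add]
    have hzd : ‖z‖ ^ d ≤ ‖z‖ ^ 2 := pow_le_pow_of_le_one (norm_nonneg _) hz hd
    have hz2 : ‖z‖ ^ 2 ≤ 1 := pow_le_one₀ (norm_nonneg _) hz
    have h1 := hL q (by omega) c' hcm c hcc (z ^ d + c') (by
      rw [mem_closedBall_zero_iff]
      have h2 := norm_add_le (z ^ d) c'
      have h3 := norm_add_le (c' - c) c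
      rw [sub_add_cancel] at h3
      rw [norm_pow] at h2
      linarith) c (by rw [mem_closedBall_zero_iff]; linarith)
    refine h1.trans ?_
    have h4 : ‖z ^ d + c' - c‖ ≤ ‖z‖ ^ 2 + ‖c' - c‖ := by
      rw [add_sub_assoc]
      refine (norm_add_le _ _).trans ?_
      rw [norm_pow]
      linarith
    have h5 : ‖c' - c‖ + ‖z ^ d + c' - c‖ ≤ 2 * S := by
      have : 0 ≤ ‖z‖ ^ 2 := by positivity
      linarith
    calc _ ≤ M₀ * (2 * S) := mul_le_mul_of_nonneg_left h5 (by linarith)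
      _ = _ := by ring
  have hCp : ∀ k : ℕ, (1 : ℝ) ≤ (C + 2) ^ k := fun k => one_le_pow₀ (by linarith)
  have hCm : ∀ k ≤ n, (C + 2) ^ k ≤ (C + 2) ^ n := fun k hk =>
    pow_le_pow_right₀ (by linarith) hk
  have hM2 : M₀ ≤ M₀ ^ 2 := by nlinarith
  -- the blocks
  have hblock : ∀ k, 1 ≤ k → k ≤ n → ‖(fc d c')^[p * k] z - P d (p * k) c‖ ≤
      3 * M₀ * S * (C + 2) ^ k := by
    intro k hk
    induction k, hk using Nat.le_induction with
    | base =>
      intro _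
      rw [mul_one, pow_one]
      refine (hfirst p hp le_rfl).trans ?_
      have : 0 ≤ M₀ * S := by positivity
      nlinarith
    | succ k hk ih =>
      intro hkn
      have h1 := ih (by omega)
      have h1t : ‖(fc d c')^[p * k] z - P d (p * k) c‖ ≤ t := by
        refine h1.trans (le_trans ?_ hS)
        calc 3 * M₀ * S * (C + 2) ^ k ≤ 4 * M₀ ^ 2 * S * (C + 2) ^ k := by
              apply mul_le_mul_of_nonneg_right _ (by positivity)
              apply mul_le_mul_of_nonneg_right _ hS0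
              linarith
          _ ≤ 4 * M₀ ^ 2 * S * (C + 2) ^ n := by
              apply mul_le_mul_of_nonneg_left (hCm k (by omega)) (by positivity)
      obtain ⟨w, hw⟩ : ∃ w, w = (fc d c')^[p * k] z := ⟨_, rfl⟩
      rw [← hw] at h1 h1t
      have hw5 : w ∈ closedBall (0 : ℂ) 5 := by
        rw [mem_closedBall_zero_iff]
        have h2 := norm_add_le (w - P d (p * k) c) (P d (p * k) c)
        rw [sub_add_cancel] at h2
        linarith [hb (p * k)]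
      have e1 : (fc d c')^[p * (k + 1)] z = (fc d c')^[p] w := by
        rw [hw, ← Function.iterate_add_apply]; congr 1; ring
      have e2 : P d (p * (k + 1)) c = (fc d c)^[p] (P d (p * k) c) := by
        rw [iter_P]; congr 1; ring
      rw [e1, e2]
      have h2 := hL p le_rfl c' hcm c hcc w hw5 w hw5
      rw [sub_self, norm_zero, add_zero] at h2
      have h3 := hstep k w h1t
      have h4 := norm_add_le ((fc d c')^[p] w - (fc d c)^[p] w)
        ((fc d c)^[p] w - (fc d c)^[p] (P d (p * k) c))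
      rw [sub_add_sub_cancel] at h4
      have h5 : M₀ * ‖c' - c‖ ≤ M₀ * S * (C + 2) ^ k := by
        calc M₀ * ‖c' - c‖ ≤ M₀ * S := by gcongr
          _ ≤ M₀ * S * (C + 2) ^ k := le_mul_of_one_le_right (by positivity) (hCp k)
      have h6 : (C + 1) * ‖w - P d (p * k) c‖ ≤ (C + 1) * (3 * M₀ * S * (C + 2) ^ k) := by
        gcongr
      calc _ ≤ _ := h4
        _ ≤ M₀ * S * (C + 2) ^ k + (C + 1) * (3 * M₀ * S * (C + 2) ^ k) := by linarith
        _ ≤ 3 * M₀ * S * (C + 2) ^ (k + 1) := by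
          have h7 : 0 ≤ M₀ * S * (C + 2) ^ k := by positivity
          rw [pow_succ]
          nlinarith
  intro m hm hmn
  rcases Nat.lt_or_ge m p with hmp | hmp
  · refine (hfirst m hm hmp.le).trans ?_
    calc 2 * M₀ * S ≤ 4 * M₀ ^ 2 * S := by
          apply mul_le_mul_of_nonneg_right _ hS0
          nlinarith
      _ ≤ 4 * M₀ ^ 2 * S * (C + 2) ^ n := le_mul_of_one_le_right (by positivity) (hCp n)
  · have hk1 : 1 ≤ m / p := (Nat.one_le_div_iff (by omega)).2 hmp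
    obtain ⟨k, hk⟩ : ∃ k, k = m / p := ⟨_, rfl⟩
    obtain ⟨q, hq⟩ : ∃ q, q = m % p := ⟨_, rfl⟩
    have hmq : m = q + p * k := by
      rw [hk, hq]
      have := Nat.mod_add_div m p
      omega
    have hqp : q < p := by rw [hq]; exact Nat.mod_lt _ (by omega)
    rw [← hk] at hk1 hmn
    have h1 := hblock k hk1 hmn
    have h1t : ‖(fc d c')^[p * k] z - P d (p * k) c‖ ≤ t := by
      refine h1.trans (le_trans ?_ hS)
      calc 3 * M₀ * S * (C + 2) ^ k ≤ 4 * M₀ ^ 2 * S * (C + 2) ^ k := by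
            apply mul_le_mul_of_nonneg_right _ (by positivity)
            apply mul_le_mul_of_nonneg_right _ hS0
            linarith
        _ ≤ 4 * M₀ ^ 2 * S * (C + 2) ^ n := by
            apply mul_le_mul_of_nonneg_left (hCm k hmn) (by positivity)
    obtain ⟨w, hw⟩ : ∃ w, w = (fc d c')^[p * k] z := ⟨_, rfl⟩
    rw [← hw] at h1 h1t
    have hw5 : w ∈ closedBall (0 : ℂ) 5 := by
      rw [mem_closedBall_zero_iff]
      have h2 := norm_add_le (w - P d (p * k) c) (P d (p * k) c)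
      rw [sub_add_cancel] at h2
      linarith [hb (p * k)]
    have e1 : (fc d c')^[m] z = (fc d c')^[q] w := by
      rw [hw, ← Function.iterate_add_apply, ← hmq]
    have e2 : P d m c = (fc d c)^[q] (P d (p * k) c) := by
      rw [iter_P, ← hmq]
    rw [e1, e2]
    have h2 := hL q hqp.le c' hcm c hcc w hw5 _ (hPm (p * k))
    refine h2.trans ?_
    have h3 : ‖c' - c‖ + ‖w - P d (p * k) c‖ ≤ 4 * M₀ * S * (C + 2) ^ k := by
      have h4 : S ≤ M₀ * S * (C + 2) ^ k := by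
        calc S ≤ M₀ * S := le_mul_of_one_le_left hS0 hM₀
          _ ≤ M₀ * S * (C + 2) ^ k := le_mul_of_one_le_right (by positivity) (hCp k)
      linarith
    calc _ ≤ M₀ * (4 * M₀ * S * (C + 2) ^ k) := mul_le_mul_of_nonneg_left h3 (by linarith)
      _ = 4 * M₀ ^ 2 * S * (C + 2) ^ k := by ring
      _ ≤ _ := mul_le_mul_of_nonneg_left (hCm k hmn) (by positivity)

/-- a trapping disc of the critical point -/
theorem mem_of_trap {m : ℕ} (hm : 1 ≤ m) {c' : ℂ} {ρ : ℝ} (hρ : 0 ≤ ρ)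
    (h : ∀ z : ℂ, ‖z‖ ≤ ρ → ‖(fc d c')^[m] z‖ ≤ ρ) : c' ∈ multibrotSet d := by
  intro ht
  have h1 : ∀ k : ℕ, ‖P d (m * k) c'‖ ≤ ρ := by
    intro k
    induction k with
    | zero => rw [Nat.mul_zero, P_zero, norm_zero]; exact hρ
    | succ k ih =>
      have e : P d (m * (k + 1)) c' = (fc d c')^[m] (P d (m * k) c') := by
        rw [iter_P]; congr 1; ring
      rw [e]
      exact h _ ih
  have h2 : Tendsto (fun k : ℕ => m * k) atTop atTop := by
    refine tendsto_atTop_mono (fun k => ?_) (tendsto_id (α := ℕ))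
    exact Nat.le_mul_of_pos_left k hm
  have h3 := ht.comp h2
  have h4 : ∀ᶠ z in Bornology.cobounded ℂ, z ∉ closedBall (0 : ℂ) ρ := isBounded_closedBall
  obtain ⟨k, hk⟩ := (h3.eventually h4).exists
  exact hk (mem_closedBall_zero_iff.2 (h1 k))

/-- **The lower bound.** -/
theorem lower (hd : 2 ≤ d) {c : ℂ} (hc : c ∈ multibrotSet d) (hfr : c ∉ interior (multibrotSet d))
    {p : ℕ} (hp : 1 ≤ p) {C : ℝ} (hC : 0 ≤ C)
    (hder : ∀ i, ‖deriv ((fc d c)^[p]) (P d (p * i) c)‖ ≤ C) :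
    ∃ κ : ℝ, 0 < κ ∧ ∀ N : ℕ, 1 ≤ N →
      κ * ((C + 2) ^ 2)⁻¹ ^ (N / p) ≤ infDist c {c' | Cn d N c'} := by
  obtain ⟨t, M, ht, hM, htr⟩ := track hd hc hp hC hder
  obtain ⟨a, ha⟩ : ∃ a, a = min t 1 / (4 * M) := ⟨_, rfl⟩
  have hM0 : 0 < M := by linarith
  have ha0 : 0 < a := by rw [ha]; positivity
  refine ⟨a ^ 2, by positivity, fun N hN => ?_⟩
  have hne : ({c' | Cn d N c'}).Nonempty := ⟨0, Pool.Agent.Q186.Cen.cn_zero hd hN⟩
  rw [le_infDist hne]
  rintro c₁ ⟨m, hm1, hmN, hPm⟩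
  rw [dist_comm, dist_eq_norm]
  by_contra hcon
  rw [not_le] at hcon
  apply hfr
  obtain ⟨n, hn⟩ : ∃ n, n = N / p := ⟨_, rfl⟩
  rw [← hn] at hcon
  have hΛ : (0 : ℝ) < (C + 2) ^ n := by positivity
  have hΛ1 : (1 : ℝ) ≤ (C + 2) ^ n := one_le_pow₀ (by linarith)
  obtain ⟨ρ, hρ⟩ : ∃ ρ, ρ = a / (C + 2) ^ n := ⟨_, rfl⟩
  have hρ0 : 0 < ρ := by rw [hρ]; positivity
  have hρ2 : ρ ^ 2 = a ^ 2 * ((C + 2) ^ 2)⁻¹ ^ n := by
    rw [hρ, div_pow, inv_pow, ← pow_mul, ← pow_mul, Nat.mul_comm, div_eq_mul_inv]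
  rw [← hρ2] at hcon
  have hmin1 : min t 1 ≤ 1 := min_le_right _ _
  have hmint : min t 1 ≤ t := min_le_left _ _
  have haM : M * a = min t 1 / 4 := by rw [ha]; field_simp
  have ha1 : a ≤ 1 := by nlinarith
  have hρ1 : ρ ≤ 1 := by
    rw [hρ, div_le_one hΛ]
    linarith
  have hρΛ : M * ρ * (C + 2) ^ n = min t 1 / 4 := by
    rw [hρ, ← haM]
    field_simp
  have hmp : m / p ≤ n := by rw [hn]; exact Nat.div_le_div_right hmN
  have hρρ : ρ ^ 2 ≤ 1 := pow_le_one₀ hρ0.le hρ1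
  -- the critical orbit of `c`
  have hP : ‖P d m c‖ ≤ ρ / 4 := by
    have h1 := htr c₁ 0 n (hcon.le.trans hρρ) (by simp) (by
      rw [norm_zero, zero_pow two_ne_zero, add_zero]
      calc M * ‖c₁ - c‖ * (C + 2) ^ n ≤ M * ρ ^ 2 * (C + 2) ^ n := by gcongr
        _ = (M * ρ * (C + 2) ^ n) * ρ := by ring
        _ ≤ (M * ρ * (C + 2) ^ n) * 1 := by gcongr
        _ ≤ t := by rw [hρΛ]; linarith [lt_min ht one_pos]) m hm1 hmp
    rw [norm_zero, zero_pow two_ne_zero, add_zero] at h1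
    have e : (fc d c₁)^[m] 0 = 0 := hPm
    rw [e, zero_sub, norm_neg] at h1
    refine h1.trans ?_
    calc M * ‖c₁ - c‖ * (C + 2) ^ n ≤ M * ρ ^ 2 * (C + 2) ^ n := by gcongr
      _ = (M * ρ * (C + 2) ^ n) * ρ := by ring
      _ ≤ (1 / 4) * ρ := by
        rw [hρΛ]
        apply mul_le_mul_of_nonneg_right _ hρ0.le
        linarith
      _ = ρ / 4 := by ring
  rw [mem_interior]
  refine ⟨ball c (ρ ^ 2), ?_, isOpen_ball, mem_ball_self (by positivity)⟩
  intro c' hc'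
  rw [mem_ball, dist_eq_norm] at hc'
  apply mem_of_trap hm1 hρ0.le
  intro z hz
  have hz2 : ‖z‖ ^ 2 ≤ ρ ^ 2 := pow_le_pow_left₀ (norm_nonneg _) hz 2
  have hS : M * (‖c' - c‖ + ‖z‖ ^ 2) * (C + 2) ^ n ≤ min t 1 / 2 * ρ := by
    calc M * (‖c' - c‖ + ‖z‖ ^ 2) * (C + 2) ^ n ≤ M * (ρ ^ 2 + ρ ^ 2) * (C + 2) ^ n := by
          gcongr
      _ = 2 * (M * ρ * (C + 2) ^ n) * ρ := by ring
      _ = min t 1 / 2 * ρ := by rw [hρΛ]; ring
  have h1 := htr c' z n (hc'.le.trans hρρ) (hz.trans hρ1) (by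
    refine hS.trans ?_
    have : 0 < min t 1 := lt_min ht one_pos
    nlinarith) m hm1 hmp
  have h2 := norm_add_le ((fc d c')^[m] z - P d m c) (P d m c)
  rw [sub_add_cancel] at h2
  have h3 : min t 1 / 2 * ρ ≤ 1 / 2 * ρ := by
    apply mul_le_mul_of_nonneg_right _ hρ0.le
    linarith
  linarith

end Pool.Agent.Q186.Ren
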